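import Pool.Agent.Helper14.LK.St
import Pool.Agent.Helper14.LK.Basic

/-!
Project LK (MP_58b586_gt): module NEM.  The superposition operator of a smooth map is smooth on
`C([0,1], E)`.
-/

set_option autoImplicit false

open scoped ContDiff Topology
open MeasureTheory Set Filter

namespace Pool.Agent.Helper57.LK

open Pool.Agent.Helper14.LK

/-- the pointwise evaluation `L η = (t ↦ L t (η t))` as a continuous bilinear map -/
private noncomputable def evB (E F : Type) [NormedAddCommGroup E] [NormedSpace ℝ E]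
    [NormedAddCommGroup F] [NormedSpace ℝ F] :
    C(unitInterval, E →L[ℝ] F) →L[ℝ] (C(unitInterval, E) →L[ℝ] C(unitInterval, F)) :=
  LinearMap.mkContinuous₂ (LinearMap.mk₂ ℝ
    (fun (L : C(unitInterval, E →L[ℝ] F)) (η : C(unitInterval, E)) =>
      (⟨fun t => L t (η t), L.continuous.clm_apply η.continuous⟩ : C(unitInterval, F)))
    (by intros; ext t; simp) (by intros; ext t; simp) (by intros; ext t; simp)
    (by intros; ext t; simp)) 1
    (by
      intro L η
      rw [one_mul, ContinuousMap.norm_le _ (by positivity)]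
      intro t
      exact ((L t).le_opNorm (η t)).trans (mul_le_mul (L.norm_coe_le_norm t)
        (η.norm_coe_le_norm t) (norm_nonneg _) (by positivity)))

private theorem evB_apply {E F : Type} [NormedAddCommGroup E] [NormedSpace ℝ E]
    [NormedAddCommGroup F] [NormedSpace ℝ F] (L : C(unitInterval, E →L[ℝ] F))
    (η : C(unitInterval, E)) (t : unitInterval) : evB E F L η t = L t (η t) := rfl

private theorem nem_hasF {E F : Type} [NormedAddCommGroup E] [NormedSpace ℝ E]
    [NormedAddCommGroup F] [NormedSpace ℝ F] (W : E → F) (hW : ContDiff ℝ ∞ W)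
    (hD : ContDiff ℝ ∞ (fderiv ℝ W)) (γ : C(unitInterval, E)) :
    HasFDerivAt (fun γ : C(unitInterval, E) =>
      (⟨fun t => W (γ t), hW.continuous.comp γ.continuous⟩ : C(unitInterval, F)))
      (evB E F ⟨fun t => fderiv ℝ W (γ t), hD.continuous.comp γ.continuous⟩) γ := by
  rw [hasFDerivAt_iff_isLittleO_nhds_zero, Asymptotics.isLittleO_iff]
  intro c hc
  have hK : IsCompact (Set.range γ) := isCompact_range γ.continuous
  have hU := hK.uniformContinuousAt_of_continuousAt (fderiv ℝ W)
    (fun a _ => hD.continuous.continuousAt) (Metric.dist_mem_uniformity hc)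
  obtain ⟨δ, hδ, hδU⟩ := Metric.mem_uniformity_dist.1 hU
  have hball : Metric.ball (0 : C(unitInterval, E)) δ ∈ 𝓝 (0 : C(unitInterval, E)) :=
    Metric.ball_mem_nhds _ hδ
  filter_upwards [hball] with η hη
  rw [mem_ball_zero_iff] at hη
  rw [ContinuousMap.norm_le _ (by positivity)]
  intro t
  have ht : ‖η t‖ ≤ ‖η‖ := η.norm_coe_le_norm t
  have hgoal : ‖W (γ t + η t) - W (γ t) - fderiv ℝ W (γ t) (η t)‖ ≤ c * ‖η t‖ := by
    have hmv := (convex_ball (γ t) δ).norm_image_sub_le_of_norm_hasFDerivWithin_le'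
      (f := W) (f' := fderiv ℝ W) (φ := fderiv ℝ W (γ t)) (C := c) (x := γ t) (y := γ t + η t)
      (fun x _ => ((hW.differentiable (by simp)) x).hasFDerivAt.hasFDerivWithinAt)
      (by
        intro x hx
        have h1 : dist (fderiv ℝ W (γ t)) (fderiv ℝ W x) < c :=
          hδU (a := γ t) (b := x) (by rw [dist_comm]; exact hx) (Set.mem_range_self t)
        rw [dist_comm, dist_eq_norm] at h1
        exact h1.le)
      (Metric.mem_ball_self hδ)
      (by rw [Metric.mem_ball, dist_eq_norm, add_sub_cancel_left]; exact ht.trans_lt hη)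
    rwa [add_sub_cancel_left] at hmv
  exact hgoal.trans (mul_le_mul_of_nonneg_left ht hc.le)

private theorem nem_nat (E : Type) [NormedAddCommGroup E] [NormedSpace ℝ E] (k : ℕ) :
    ∀ (F : Type) [NormedAddCommGroup F] [NormedSpace ℝ F] (W : E → F) (hW : ContDiff ℝ ∞ W),
    ContDiff ℝ k (fun γ : C(unitInterval, E) =>
      (⟨fun t => W (γ t), hW.continuous.comp γ.continuous⟩ : C(unitInterval, F))) := by
  induction k with
  | zero =>
    intro F _ _ W hW
    rw [Nat.cast_zero, contDiff_zero]
    exact ContinuousMap.continuous_postcomp (⟨W, hW.continuous⟩ : C(E, F))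
  | succ k ih =>
    intro F _ _ W hW
    have hD : ContDiff ℝ ∞ (fderiv ℝ W) := hW.fderiv_right (by simp)
    rw [Nat.cast_succ, contDiff_succ_iff_hasFDerivAt]
    refine ⟨fun γ => evB E F ⟨fun t => fderiv ℝ W (γ t), hD.continuous.comp γ.continuous⟩,
      ?_, fun γ => nem_hasF W hW hD γ⟩
    have hB : ContDiff ℝ (k : ℕ) (fun L => evB E F L) :=
      ContinuousLinearMap.contDiff (𝕜 := ℝ) (E := C(unitInterval, E →L[ℝ] F))
        (F := C(unitInterval, E) →L[ℝ] C(unitInterval, F)) (evB E F)
    exact hB.comp (ih (E →L[ℝ] F) (fderiv ℝ W) hD)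

theorem hNEM : StNEM := by
  intro E F _ _ _ _ _ W hW
  rw [contDiff_infty]
  intro k
  exact nem_nat E k F W hW

end Pool.Agent.Helper57.LK
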